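import Pool.Agent.H91.LF.Defs3
import Pool.Agent.H12.LF.Av
import Pool.Agent.H91.LF.Core

/-!
# [LAMP] the finitary theorem for the Liouville function with exceptional primes
-/

set_option autoImplicit false

open Finset Filter Topology

namespace Pool.Agent.H34.LF

open Pool.Agent.H91.LF Pool.Agent.H12.LF

variable {m k : ℕ}

/-- the sum of the products over a residue class -/
noncomputable def SS (a : Fin k → ℤ) (b : Fin k → Fin m → ℤ) (W : ℕ) (n₀ : ℤ) (t : Fin m → ℕ)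
    (N : ℕ) : ℝ :=
  ∑ n ∈ (Finset.Icc 1 N).filter (fun n : ℕ => (n : ℤ) ≡ n₀ [ZMOD W]),
    ∏ i, lz (frm (a i) (b i) n (fun l => (t l : ℤ)))

open Classical in
/-- the average of the absolute values -/
noncomputable def DD (a : Fin k → ℤ) (b : Fin k → Fin m → ℤ) (W : ℕ) (n₀ : ℤ) (τ : Fin m → ℤ)
    (T x y : ℕ) : ℝ :=
  ∑ t ∈ (box m T).filter (fun t => ∀ l, (t l : ℤ) ≡ τ l [ZMOD W]),
    wt t * ∑ N ∈ Finset.Icc x y, (1 / (N : ℝ)) * |SS a b W n₀ t N / N|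

open Classical in
theorem Fpr_pt (a : Fin k → ℤ) (b : Fin k → Fin m → ℤ) (W : ℕ) (n₀ : ℤ) (τ : Fin m → ℤ)
    (n n' : ℤ) (t : Fin m → ℤ) :
    Fpr a b W (pt n₀ n₀ τ) (pt n n' t) =
      if (∀ l, t l ≡ τ l [ZMOD W]) then
        (if n ≡ n₀ [ZMOD W] then ∏ i, lz (frm (a i) (b i) n t) else 0) *
          (if n' ≡ n₀ [ZMOD W] then ∏ i, lz (frm (a i) (b i) n' t) else 0) else 0 := by
  have hpar : par (pt n n' t) = t := rfl
  unfold Fpr
  rw [hpar, pt_zero, pt_one, Finset.prod_mul_distrib]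
  by_cases h1 : ∀ l, t l ≡ τ l [ZMOD W]
  · by_cases h2 : n ≡ n₀ [ZMOD W]
    · by_cases h3 : n' ≡ n₀ [ZMOD W]
      · rw [if_pos, if_pos h1, if_pos h2, if_pos h3]
        exact fin_cases _ h2 h3 h1
      · rw [if_neg, if_pos h1, if_neg h3, mul_zero]
        exact fun h => h3 (h 1)
    · rw [if_neg, if_pos h1, if_neg h2, zero_mul]
      exact fun h => h2 (h 0)
  · rw [if_neg, if_neg h1]
    exact fun h => h1 (fun l => h l.succ.succ)

open Classical in
theorem Sq_Fpr (a : Fin k → ℤ) (b : Fin k → Fin m → ℤ) (W : ℕ) (n₀ : ℤ) (τ : Fin m → ℤ)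
    (t : Fin m → ℕ) (N : ℕ) :
    Sq (Fpr a b W (pt n₀ n₀ τ)) t N =
      if (∀ l, (t l : ℤ) ≡ τ l [ZMOD W]) then SS a b W n₀ t N ^ 2 else 0 := by
  unfold Sq
  simp only [Fpr_pt]
  by_cases h : ∀ l, (t l : ℤ) ≡ τ l [ZMOD W]
  · simp only [if_pos h]
    rw [← Finset.sum_mul_sum, sq]
    unfold SS
    rw [Finset.sum_filter]
  · simp only [if_neg h]
    simp

theorem Ls_le {x y : ℕ} (hx : 0 < x) (hxy : x ≤ y) :
    Ls x y ≤ 1 + Real.log ((y : ℝ) / x) := by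
  have hx' : (0 : ℝ) < x := by exact_mod_cast hx
  induction y, hxy using Nat.le_induction with
  | base =>
    unfold Ls
    rw [Finset.Icc_self, Finset.sum_singleton, div_self hx'.ne', Real.log_one, add_zero,
      div_le_one hx']
    exact_mod_cast hx
  | succ y hxy ih =>
    have hy : (0 : ℝ) < (y : ℝ) := by exact_mod_cast hx.trans_le hxy
    have h1 : Ls x (y + 1) = Ls x y + 1 / ((y + 1 : ℕ) : ℝ) := by
      unfold Ls
      rw [Finset.sum_Icc_succ_top (by omega)]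
    have h2 : Real.log (((y + 1 : ℕ) : ℝ) / x) = Real.log ((y : ℝ) / x) -
        Real.log ((y : ℝ) / ((y + 1 : ℕ) : ℝ)) := by
      rw [Real.log_div (by positivity) hx'.ne', Real.log_div hy.ne' hx'.ne',
        Real.log_div hy.ne' (by positivity)]
      ring
    have h3 : Real.log ((y : ℝ) / ((y + 1 : ℕ) : ℝ)) ≤ (y : ℝ) / ((y + 1 : ℕ) : ℝ) - 1 :=
      Real.log_le_sub_one_of_pos (by positivity)
    have h4 : (y : ℝ) / ((y + 1 : ℕ) : ℝ) - 1 = - (1 / ((y + 1 : ℕ) : ℝ)) := by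
      push_cast
      field_simp
      ring
    rw [h1, h2]
    linarith

theorem Wt_pow (T : ℕ) : Wt m T = Ls 1 T ^ m := by
  unfold Wt wt Pool.Agent.H91.LF.box Ls
  rw [Finset.sum_prod_piFinset (Finset.Icc 1 T) (fun (_ : Fin m) (j : ℕ) => (1 : ℝ) / (j : ℝ))]
  simp

theorem Wt_le {T : ℕ} (hT : 0 < T) : Wt m T ≤ (1 + Real.log T) ^ m := by
  rw [Wt_pow]
  refine pow_le_pow_left₀ (Ls_nonneg 1 T) ?_ m
  have := Ls_le Nat.one_pos hT
  simpa using this

/-- Cauchy-Schwarz -/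
theorem DD_sq_le (a : Fin k → ℤ) (b : Fin k → Fin m → ℤ) (W : ℕ) (n₀ : ℤ) (τ : Fin m → ℤ)
    (T x y : ℕ) : DD a b W n₀ τ T x y ^ 2 ≤ (Wt m T * Ls x y) *
      ∑ t ∈ box m T, wt t * Gf x y (Fpr a b W (pt n₀ n₀ τ)) t := by
  classical
  set B := (box m T).filter (fun t => ∀ l, (t l : ℤ) ≡ τ l [ZMOD W]) with hB
  have h1 : DD a b W n₀ τ T x y = ∑ q ∈ B ×ˢ Finset.Icc x y,
      wt q.1 * ((1 / (q.2 : ℝ)) * |SS a b W n₀ q.1 q.2 / q.2|) := by
    rw [Finset.sum_product]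
    unfold DD
    refine Finset.sum_congr (by rw [hB]) fun t _ => ?_
    rw [Finset.mul_sum]
  have h2 : ∑ q ∈ B ×ˢ Finset.Icc x y, wt q.1 * (1 / (q.2 : ℝ)) ≤ Wt m T * Ls x y := by
    rw [Finset.sum_product]
    unfold Wt Ls
    rw [Finset.sum_mul]
    refine (Finset.sum_le_sum_of_subset_of_nonneg (Finset.filter_subset _ _) ?_).trans
      (le_of_eq (Finset.sum_congr rfl fun t _ => ?_))
    · intro t _ _
      exact Finset.sum_nonneg fun N _ => mul_nonneg (wt_nonneg t) (by positivity)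
    · rw [Finset.mul_sum]
  have h3 : ∑ q ∈ B ×ˢ Finset.Icc x y,
      wt q.1 * ((1 / (q.2 : ℝ)) * (SS a b W n₀ q.1 q.2 / q.2) ^ 2) =
      ∑ t ∈ box m T, wt t * Gf x y (Fpr a b W (pt n₀ n₀ τ)) t := by
    rw [Finset.sum_product, hB, Finset.sum_filter]
    refine Finset.sum_congr rfl fun t _ => ?_
    unfold Gf
    rw [Finset.mul_sum]
    by_cases h : ∀ l, (t l : ℤ) ≡ τ l [ZMOD W]
    · rw [if_pos h]
      refine Finset.sum_congr rfl fun N _ => ?_
      rw [Sq_Fpr, if_pos h, div_pow]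
    · rw [if_neg h]
      symm
      refine Finset.sum_eq_zero fun N _ => ?_
      rw [Sq_Fpr, if_neg h, zero_div, mul_zero, mul_zero]
  have h0 : 0 ≤ ∑ q ∈ B ×ˢ Finset.Icc x y,
      wt q.1 * ((1 / (q.2 : ℝ)) * (SS a b W n₀ q.1 q.2 / q.2) ^ 2) :=
    Finset.sum_nonneg fun q _ => mul_nonneg (wt_nonneg _) (by positivity)
  rw [h1]
  refine (Finset.sum_sq_le_sum_mul_sum_of_sq_le_mul (B ×ˢ Finset.Icc x y)
    (f := fun q => wt q.1 * (1 / (q.2 : ℝ)))
    (g := fun q => wt q.1 * ((1 / (q.2 : ℝ)) * (SS a b W n₀ q.1 q.2 / q.2) ^ 2))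
    (fun q _ => mul_nonneg (wt_nonneg _) (by positivity))
    (fun q _ => mul_nonneg (wt_nonneg _) (by positivity)) (fun q _ => ?_)).trans ?_
  · have : |SS a b W n₀ q.1 q.2 / q.2| ^ 2 = (SS a b W n₀ q.1 q.2 / q.2) ^ 2 := sq_abs _
    rw [mul_pow, mul_pow, this]
    exact le_of_eq (by ring)
  · rw [← h3]
    exact mul_le_mul_of_nonneg_right h2 h0

/-- a large average of the absolute values gives a large average of `Fpr` -/
theorem avg_ge {a : Fin k → ℤ} {b : Fin k → Fin m → ℤ} {W : ℕ} {n₀ : ℤ} {τ : Fin m → ℤ}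
    {T x y : ℕ} {ρ L : ℝ} (hρ : 0 < ρ) (hL : 0 < L) (h : ρ * L < DD a b W n₀ τ T x y)
    (hZ : Wt m T * Ls x y ≤ 2 * L) :
    ρ ^ 2 / 4 ≤ avg m T x y (Fpr a b W (pt n₀ n₀ τ)) := by
  rw [avg_eq]
  set Z := Wt m T * Ls x y with hZdef
  set Nu := ∑ t ∈ box m T, wt t * Gf x y (Fpr a b W (pt n₀ n₀ τ)) t with hNu
  have h1 : DD a b W n₀ τ T x y ^ 2 ≤ Z * Nu := DD_sq_le a b W n₀ τ T x y
  have h2 : (ρ * L) ^ 2 ≤ Z * Nu := by
    refine le_trans ?_ h1
    exact pow_le_pow_left₀ (by positivity) h.le 2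
  have hZ0 : 0 ≤ Z := mul_nonneg (Wt_nonneg T) (Ls_nonneg x y)
  have hpos : 0 < Z * Nu := lt_of_lt_of_le (by positivity) h2
  have hZpos : 0 < Z := by
    rcases hZ0.eq_or_lt with h0 | h0
    · rw [← h0, zero_mul] at hpos
      exact absurd hpos (lt_irrefl _)
    · exact h0
  rw [le_div_iff₀ hZpos]
  have h3 : ρ ^ 2 / 4 * Z * Z ≤ Nu * Z := by
    calc ρ ^ 2 / 4 * Z * Z = ρ ^ 2 / 4 * Z ^ 2 := by ring
      _ ≤ ρ ^ 2 / 4 * (2 * L) ^ 2 := by
          refine mul_le_mul_of_nonneg_left ?_ (by positivity)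
          exact pow_le_pow_left₀ hZ0 hZ 2
      _ = (ρ * L) ^ 2 := by ring
      _ ≤ Nu * Z := by rw [mul_comm Nu Z]; exact h2
  exact le_of_mul_le_mul_right h3 hZpos

/-- the normalisation -/
theorem norm_le {T x y : ℕ → ℕ} (hT : Tendsto T atTop atTop) (hx : ∀ j, 0 < x j)
    (hxy : Tendsto (fun j => Real.log ((y j : ℝ) / x j)) atTop atTop) :
    ∀ᶠ j in atTop, 0 < Real.log (T j) ^ m * Real.log ((y j : ℝ) / x j) ∧
      Wt m (T j) * Ls (x j) (y j) ≤ 2 * (Real.log (T j) ^ m * Real.log ((y j : ℝ) / x j)) := by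
  have hL : Tendsto (fun j => Real.log (T j)) atTop atTop :=
    Real.tendsto_log_atTop.comp (tendsto_natCast_atTop_atTop.comp hT)
  have h1 : Tendsto (fun j => ((Real.log (T j))⁻¹ + 1) ^ m *
      ((Real.log ((y j : ℝ) / x j))⁻¹ + 1)) atTop (𝓝 ((0 + 1) ^ m * (0 + 1))) :=
    (((tendsto_inv_atTop_zero.comp hL).add_const 1).pow m).mul
      ((tendsto_inv_atTop_zero.comp hxy).add_const 1)
  have h2 : ∀ᶠ j in atTop, ((Real.log (T j))⁻¹ + 1) ^ m *
      ((Real.log ((y j : ℝ) / x j))⁻¹ + 1) < 2 := by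
    refine h1.eventually_lt_const ?_
    norm_num
  filter_upwards [h2, hL.eventually_gt_atTop 0, hxy.eventually_gt_atTop 0,
    hT.eventually_gt_atTop 0] with j h2 hL0 hl0 hT0
  have hpos : 0 < Real.log (T j) ^ m * Real.log ((y j : ℝ) / x j) := by positivity
  refine ⟨hpos, ?_⟩
  have hxy' : x j ≤ y j := by
    by_contra hlt
    have hx' : (0 : ℝ) < x j := by exact_mod_cast hx j
    have : (y j : ℝ) / x j ≤ 1 := by
      rw [div_le_one hx']
      exact_mod_cast (not_le.1 hlt).le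
    exact absurd hl0 (not_lt.2 (Real.log_nonpos (by positivity) this))
  calc Wt m (T j) * Ls (x j) (y j) ≤
        (1 + Real.log (T j)) ^ m * (1 + Real.log ((y j : ℝ) / x j)) :=
        mul_le_mul (Wt_le hT0) (Ls_le (hx j) hxy') (Ls_nonneg _ _) (by positivity)
    _ = (Real.log (T j) ^ m * Real.log ((y j : ℝ) / x j)) * (((Real.log (T j))⁻¹ + 1) ^ m *
      ((Real.log ((y j : ℝ) / x j))⁻¹ + 1)) := by
        have e1 : 1 + Real.log (T j) = Real.log (T j) * ((Real.log (T j))⁻¹ + 1) := by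
          field_simp
        have e2 : 1 + Real.log ((y j : ℝ) / x j) = Real.log ((y j : ℝ) / x j) *
            ((Real.log ((y j : ℝ) / x j))⁻¹ + 1) := by
          field_simp
        rw [e1, e2, mul_pow]
        ring
    _ ≤ (Real.log (T j) ^ m * Real.log ((y j : ℝ) / x j)) * 2 :=
        mul_le_mul_of_nonneg_left h2.le hpos.le
    _ = _ := mul_comm _ _

/-- pigeonhole for sequences of subsets of a finite set -/
theorem pigeon (P : Finset ℕ) (E : ℕ → Finset ℕ) (hE : ∀ i, E i ⊆ P) :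
    ∃ (E₀ : Finset ℕ) (φ : ℕ → ℕ), StrictMono φ ∧ ∀ i, E (φ i) = E₀ := by
  have h : ∃ E₀, ∃ᶠ i in atTop, E i = E₀ := by
    by_contra hcon
    push Not at hcon
    have h1 : ∀ᶠ i in atTop, ∀ E₀ ∈ P.powerset, E i ≠ E₀ :=
      (Filter.eventually_all_finset P.powerset).2 (fun E₀ _ => hcon E₀)
    obtain ⟨i, hi⟩ := h1.exists
    exact hi (E i) (Finset.mem_powerset.2 (hE i)) rfl
  obtain ⟨E₀, hE₀⟩ := h
  obtain ⟨φ, hφ, h⟩ := Filter.extraction_of_frequently_atTop hE₀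
  exact ⟨E₀, φ, hφ, h⟩

open Classical in
/-- the sum over the integers obtained by the coercion of a finite set of natural numbers -/
theorem bindcast_eq (s : Finset ℕ) :
    ((do let a ← s; pure (a : ℤ)) : Finset ℤ) = s.image (fun a : ℕ => (a : ℤ)) := by
  ext x
  simp only [Finset.bind_def, Finset.pure_def, Finset.mem_sup, Finset.mem_singleton,
    Finset.mem_image]
  constructor
  · rintro ⟨v, hv, rfl⟩
    exact ⟨v, hv, rfl⟩
  · rintro ⟨v, hv, rfl⟩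
    exact ⟨v, hv, rfl⟩

open Classical in
theorem sum_bindcast_filter (s : Finset ℕ) (Q : ℤ → Prop) [DecidablePred Q] (f : ℤ → ℝ) :
    ∑ p ∈ ((do let a ← s; pure (a : ℤ)) : Finset ℤ).filter Q, f p =
      ∑ p ∈ s.filter (fun p : ℕ => Q p), f p := by
  rw [bindcast_eq, Finset.filter_image, Finset.sum_image]
  intro a _ b _ hab
  exact Nat.cast_injective hab

open Classical in
/-- the clean form of `StatementLAMP` (sums over natural numbers) -/
def LampClean : Prop :=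
  ∀ (m k : ℕ) (a : Fin k → ℤ) (b : Fin k → Fin m → ℤ) (c : Fin k → ℤ) (j : Fin k) (W : ℕ)
    (n₀ : ℤ) (τ : Fin m → ℤ), 0 < W → Ind a b j → ∀ ρ : ℝ, 0 < ρ → ∃ C : ℝ, ∀ P : ℕ,
    ∃ T₀ : ℕ, ∀ T, T₀ ≤ T → ∃ K : ℕ, ∀ x y : ℕ, 0 < x → K * x ≤ y →
      ∑ p ∈ (primesLE P).filter (fun p : ℕ => ρ * Real.log T ^ m * Real.log (y / x) <
        ∑ t ∈ (Pool.Agent.H91.LF.box m T).filter (fun t => ∀ l, (t l : ℤ) ≡ τ l [ZMOD W]),
        wt t * ∑ N ∈ Finset.Icc x y, (1 / (N : ℝ)) *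
          |(∑ n ∈ (Finset.Icc 1 N).filter (fun n : ℕ => (n : ℤ) ≡ n₀ [ZMOD W]),
            ∏ i, lz (frm (a i + c i * (p : ℤ)) (b i) n (fun l => (t l : ℤ)))) / N|),
        (1 / (p : ℝ)) ≤ C

theorem lamp_clean (h1 : StatementUM) (h2 : StatementCP) : LampClean := by
  classical
  intro m k a b c j W n₀ τ hW hInd ρ hρ
  obtain ⟨C', hC'⟩ := h2 m k a b c j W (pt n₀ n₀ τ) hW hInd
  refine ⟨16 * C' / ρ ^ 4, ?_⟩
  by_contra hcon
  push Not at hcon
  obtain ⟨P, hP⟩ := hcon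
  choose T hT hP using hP
  choose x y hx hKxy hbig using hP
  -- the sequences
  let K : ℕ → ℕ := fun i => ⌈Real.exp ((i : ℝ) * (1 + Real.log (T i)))⌉₊
  let X : ℕ → ℕ := fun i => x i (K i)
  let Y : ℕ → ℕ := fun i => y i (K i)
  have hX : ∀ i, 0 < X i := fun i => hx i (K i)
  have hTt : Tendsto T atTop atTop := tendsto_atTop_mono hT tendsto_id
  have hlog : ∀ i : ℕ, (i : ℝ) * (1 + Real.log (T i)) ≤ Real.log ((Y i : ℝ) / X i) := by
    intro i
    have hx' : (0 : ℝ) < X i := by exact_mod_cast hX i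
    have h3 : Real.exp ((i : ℝ) * (1 + Real.log (T i))) ≤ (Y i : ℝ) / X i := by
      refine (Nat.le_ceil _).trans ?_
      rw [le_div_iff₀ hx']
      exact_mod_cast hKxy i (K i)
    rw [Real.le_log_iff_exp_le (lt_of_lt_of_le (Real.exp_pos _) h3)]
    exact h3
  have hlogT : ∀ i, 0 ≤ Real.log (T i) := fun i => Real.log_natCast_nonneg _
  have hratio : Tendsto (fun i => Real.log ((Y i : ℝ) / X i) / (1 + Real.log (T i)))
      atTop atTop := by
    refine tendsto_atTop_mono (f := fun i : ℕ => (i : ℝ)) (fun i => ?_)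
      tendsto_natCast_atTop_atTop
    rw [le_div_iff₀ (by linarith [hlogT i])]
    exact hlog i
  have hlogt : Tendsto (fun i => Real.log ((Y i : ℝ) / X i)) atTop atTop := by
    refine tendsto_atTop_mono (f := fun i : ℕ => (i : ℝ)) (fun i => ?_)
      tendsto_natCast_atTop_atTop
    refine le_trans ?_ (hlog i)
    have : (0 : ℝ) ≤ i := Nat.cast_nonneg i
    nlinarith [hlogT i]
  -- the exceptional sets
  let E : ℕ → Finset ℕ := fun i => (primesLE P).filter (fun p =>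
    ρ * (Real.log (T i) ^ m * Real.log ((Y i : ℝ) / X i)) <
      DD (fun i => a i + c i * (p : ℤ)) b W n₀ τ (T i) (X i) (Y i))
  have hEbig : ∀ i, 16 * C' / ρ ^ 4 < ∑ p ∈ E i, (1 / (p : ℝ)) := by
    intro i
    have h3 := hbig i (K i)
    refine lt_of_lt_of_le h3 (le_of_eq ?_)
    refine Finset.sum_congr ?_ (fun _ _ => rfl)
    ext p
    simp only [E, Finset.mem_filter, ← mul_assoc]
    rfl
  obtain ⟨E₀, φ, hφ, hE₀⟩ := pigeon (primesLE P) E (fun i => Finset.filter_subset _ _)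
  obtain ⟨M, hDil, hTwo, hM⟩ := h1 m (fun i => T (φ i)) (fun i => X (φ i)) (fun i => Y (φ i))
    (hTt.comp hφ.tendsto_atTop) (fun i => hX (φ i)) (hratio.comp hφ.tendsto_atTop)
  have hsub : E₀ ⊆ primesLE P := by
    rw [← hE₀ 0]
    exact Finset.filter_subset _ _
  have hnorm := norm_le (m := m) (T := fun i => T (φ i)) (x := fun i => X (φ i))
    (y := fun i => Y (φ i)) (hTt.comp hφ.tendsto_atTop) (fun i => hX (φ i))
    (hlogt.comp hφ.tendsto_atTop)
  have hp : ∀ p ∈ E₀, ρ ^ 2 / 4 ≤ M.E (Fpr (fun i => a i + c i * (p : ℤ)) b W (pt n₀ n₀ τ)) := by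
    intro p hp
    refine hM _ _ (bdd_Fpr _ _ _ _) ?_
    filter_upwards [hnorm] with i hi
    have h3 : p ∈ E (φ i) := by rw [hE₀ i]; exact hp
    exact avg_ge hρ hi.1 (Finset.mem_filter.1 h3).2 hi.2
  have hfin := hC' P M hDil hTwo
  have h4 : (ρ ^ 2 / 4) ^ 2 * ∑ p ∈ E₀, (1 / (p : ℝ)) ≤ C' := by
    refine le_trans ?_ hfin
    rw [Finset.mul_sum]
    refine (Finset.sum_le_sum fun p hpE => ?_).trans
      (Finset.sum_le_sum_of_subset_of_nonneg hsub fun p _ _ => by positivity)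
    rw [mul_comm]
    refine mul_le_mul_of_nonneg_left ?_ (by positivity)
    exact pow_le_pow_left₀ (by positivity) (hp p hpE) 2
  have h5 := hEbig (φ 0)
  rw [hE₀ 0, div_lt_iff₀ (by positivity)] at h5
  have h6 : (ρ ^ 2 / 4) ^ 2 * ∑ p ∈ E₀, (1 / (p : ℝ)) =
      ((∑ p ∈ E₀, (1 / (p : ℝ))) * ρ ^ 4) / 16 := by ring
  rw [h6] at h4
  linarith

theorem lamp_of_clean (h : LampClean) : StatementLAMP := by
  intro m k a b c j W n₀ τ hW hInd ρ hρ
  obtain ⟨C, hC⟩ := h m k a b c j W n₀ τ hW hInd ρ hρ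
  refine ⟨C, fun P => ?_⟩
  obtain ⟨T₀, hT₀⟩ := hC P
  refine ⟨T₀, fun T hT => ?_⟩
  obtain ⟨K, hK⟩ := hT₀ T hT
  refine ⟨K, fun x y hx hy => ?_⟩
  have h1 := hK x y hx hy
  rw [sum_bindcast_filter]
  simp only [sum_bindcast_filter]
  exact h1

theorem lamp_main (h1 : StatementUM) (h2 : StatementCP) : StatementLAMP :=
  lamp_of_clean (lamp_clean h1 h2)

end Pool.Agent.H34.LF
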