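import Pool.Agent.H28.LF.T3

/-!
Project LF, D1: the mass of the classes is constant.
-/

set_option autoImplicit false

open MeasureTheory ProbabilityTheory Filter Topology Finset
open scoped Nat ENNReal

namespace Pool.Agent.H34.LF

open Pool.Agent.H24.T2 (Pset)
open Pool.Agent.H67.AG (avgP ul Inv Rt Av SA kap JJ TT InvZ nxt triv tow XN PN TN XX PX TX prX Fac)
open Pool.Agent.H28.LF

theorem pf_D1 (hE : T_EQB) (hJ3 : Pool.Agent.H67.AG.T_J3) : T_D1 := by
  intro c Z hZ hCP
  obtain ⟨hm, hT, heq, -⟩ := hE c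
  have hmp : MeasurePreserving c.T c.μ c.μ := c.erg.toMeasurePreserving
  obtain ⟨-, hk⟩ := hJ3 c.X c.μ c.T Z hmp hZ
  set S : Set (c.X × c.X) := Prod.swap ⁻¹' c.Eqv with hS
  have hSm : MeasurableSet S := measurable_swap hm
  set g : c.X → ℝ := fun x => (kap c.μ Z x).real {x' | (x', x) ∈ c.Eqv} with hg
  have hgm : Measurable g := by
    have h1 : Measurable fun x => kap c.μ Z x (Prod.mk x ⁻¹' S) :=
      Kernel.measurable_kernel_prodMk_left hSm
    exact h1.ennreal_toReal
  have hinv : g ∘ c.T =ᵐ[c.μ] g := by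
    filter_upwards [hk] with x hx
    have h1 : (kap c.μ Z (c.T x)).real {x' | (x', c.T x) ∈ c.Eqv} =
        (kap c.μ Z x).real {x' | (x', x) ∈ c.Eqv} := by
      rw [hx]
      unfold Measure.real
      have hm2 : MeasurableSet {x' | (x', c.T x) ∈ c.Eqv} :=
        (measurable_id.prodMk measurable_const) hm
      rw [Measure.map_apply c.T.measurable hm2]
      congr 2
      ext x'
      have h2 : (x', x) ∈ (TT c.T) ⁻¹' c.Eqv ↔ (x', x) ∈ c.Eqv := by rw [hT]
      exact h2
    exact h1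
  obtain ⟨c₀, hc₀⟩ := c.erg.ae_eq_const_of_ae_eq_comp_ae hgm.aestronglyMeasurable hinv
  have hJ : (JJ c.μ Z) c.Eqv = ENNReal.ofReal c₀ := by
    unfold JJ
    rw [Measure.compProd_apply hm]
    have h1 : ∀ᵐ x ∂c.μ, (kap c.μ Z x) (Prod.mk x ⁻¹' c.Eqv) = ENNReal.ofReal c₀ := by
      filter_upwards [hc₀] with x hx
      have h2 : Prod.mk x ⁻¹' c.Eqv = {x' | (x', x) ∈ c.Eqv} := by
        ext x'
        exact ⟨fun h => (heq x x' x).2.1 h, fun h => (heq x' x x).2.1 h⟩
      have h3 : g x = c₀ := hx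
      rw [h2, ← h3, hg]
      simp only [Measure.real]
      rw [ENNReal.ofReal_toReal (measure_ne_top _ _)]
    rw [lintegral_congr_ae h1]
    simp
  have hpos : 0 < c₀ := by
    unfold Ux.CP at hCP
    unfold Measure.real at hCP
    rw [hJ] at hCP
    by_contra hcon
    rw [ENNReal.ofReal_of_nonpos (not_lt.1 hcon)] at hCP
    simp at hCP
  refine ⟨c₀, hpos, ?_, ?_⟩
  · have h1 : (JJ c.μ Z) c.Eqv ≤ 1 := by
      unfold JJ
      exact prob_le_one
    rw [hJ] at h1
    exact ENNReal.ofReal_le_one.1 h1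
  · filter_upwards [hc₀] with x hx
    exact le_of_eq hx.symm

end Pool.Agent.H34.LF
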