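import Pool.Agent.H28.LF.T2

/-!
Project LF, XSW: the switching lemma (from X5, X6, X6b, X7, X8).
-/

set_option autoImplicit false

open MeasureTheory ProbabilityTheory Filter Topology Finset
open scoped Nat ENNReal

namespace Pool.Agent.H34.LF

open Pool.Agent.H24.T2 (Pset)
open Pool.Agent.H67.AG (avgP ul Inv Rt Av SA kap JJ TT InvZ nxt triv tow XN PN TN XX PX TX prX Fac)
open Pool.Agent.H28.LF

theorem pf_XSW (h5 : T_X5) (h6 : T_X6) (hb : T_X6b) (h7 : T_X7) (h8 : T_X8) : T_XSW := by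
  intro K γ m₀ ε hK hγ hm hε
  set C : ℝ := 16 / (γ * m₀) ^ 2 with hC
  have hgm : 0 < (γ * m₀) ^ 2 := by positivity
  have hC0 : 0 < C := by positivity
  set ε' : ℝ := ε / (C + 1) with hε'
  have hε'0 : 0 < ε' := by positivity
  have hKr : (0 : ℝ) < K := by exact_mod_cast hK
  set ε₁ : ℝ := ε' / (4 * (30 * (K : ℝ)) ^ 2) with hε₁
  have hε₁0 : 0 < ε₁ := by positivity
  obtain ⟨w₀, hw₀⟩ := h6 ε₁ hε₁0
  obtain ⟨η, hη, h8'⟩ := h8 K (w₀ ! * (30 * K)) γ m₀ ε' hK hγ hm hε'0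
  refine ⟨η, hη, ?_⟩
  intro d hdK hdγ hdm
  obtain ⟨L, L₂, L₁, hL, hL₂, h8''⟩ := h8' d hdK hdγ hdm
  refine ⟨L₁, ?_⟩
  intro e he
  obtain ⟨hEE, hmv⟩ := h8'' e he
  obtain ⟨hb1, hb2, hb3, hb4⟩ := hb d e L L₂ (w₀ ! * (30 * K)) ε₁ hL hL₂ hε₁0.le
  have hps : 0 < d.ps := by
    unfold Sx.ps
    rw [hdγ, hdm, hdK]
    positivity
  have hle : Inv e.T 1 ≤ e.mΩ := MeasurableSpace.invariants_le _
  have hc : 0 < (d.γ * d.m₀) ^ 2 / 16 := by
    rw [hdγ, hdm]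
    positivity
  have hX5 := h5 e.Ω (Inv e.T 1) e.P (fun t => e.P[e.Pt t | Inv e.T 1]) (e.P[e.mv 1 | Inv e.T 1])
    (fun B => e.EE L L₂ (w₀ ! * (30 * K)) ε₁ B) d.ps ((d.γ * d.m₀) ^ 2 / 16) hle hps hc
    (fun t => stronglyMeasurable_condExp.measurable) stronglyMeasurable_condExp.measurable hb3 hb4
    hb1 hb2 ?_
  · have hEE' : e.EE L L₂ (w₀ ! * (30 * K)) ε₁ Set.univ ≤
        2 * La d.U d.s e.P e.T e.ys d.Bad Set.univ + ε' := by
      have h : ε₁ = ε' / (4 * (30 * (d.K : ℝ)) ^ 2) := by rw [hε₁, hdK]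
      rw [h]
      exact hEE
    have hsub : e.P.real {ω | ∀ b, d.ps < (e.P[e.Pb b | Inv e.T 1]) ω} ≤
        e.P.real ({ω | (e.P[e.mv 1 | Inv e.T 1]) ω ≤ d.ps / 10 ∧
            ∃ t, d.ps < (e.P[e.Pt t | Inv e.T 1]) ω} ∪
          {ω | d.ps / 10 < (e.P[e.mv 1 | Inv e.T 1]) ω}) := by
      refine ENNReal.toReal_mono (measure_ne_top _ _) (measure_mono_ae ?_)
      filter_upwards [h7 d e] with ω hω hω'
      by_cases h10 : (e.P[e.mv 1 | Inv e.T 1]) ω ≤ d.ps / 10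
      · left
        refine ⟨h10, ?_⟩
        by_contra hcon
        simp only [not_exists, not_lt] at hcon
        obtain ⟨b, hb'⟩ := hω hcon
        exact absurd (hω' b) (not_lt.2 hb')
      · right
        exact not_le.1 h10
    have h1 : e.P.real {ω | (e.P[e.mv 1 | Inv e.T 1]) ω ≤ d.ps / 10 ∧
        ∃ t, d.ps < (e.P[e.Pt t | Inv e.T 1]) ω} ≤
        C * (2 * La d.U d.s e.P e.T e.ys d.Bad Set.univ + ε') := by
      have h2 := hX5.trans hEE'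
      have h3 : (d.γ * d.m₀) ^ 2 / 16 = 1 / C := by
        rw [hdγ, hdm, hC]
        field_simp
      rw [h3, one_div, inv_mul_le_iff₀ hC0] at h2
      exact h2
    have h4 := measureReal_union_le (μ := e.P) {ω | (e.P[e.mv 1 | Inv e.T 1]) ω ≤ d.ps / 10 ∧
            ∃ t, d.ps < (e.P[e.Pt t | Inv e.T 1]) ω}
          {ω | d.ps / 10 < (e.P[e.mv 1 | Inv e.T 1]) ω}
    have h5' : 32 / (d.γ * d.m₀) ^ 2 = 2 * C := by
      rw [hdγ, hdm, hC]
      ring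
    have h6' : (C + 1) * ε' = ε := by
      rw [hε']
      field_simp
    rw [h5']
    calc e.P.real {ω | ∀ b, d.ps < (e.P[e.Pb b | Inv e.T 1]) ω}
        ≤ _ := hsub
      _ ≤ _ := h4
      _ ≤ C * (2 * La d.U d.s e.P e.T e.ys d.Bad Set.univ + ε') + ε' := add_le_add h1 hmv
      _ = 2 * C * La d.U d.s e.P e.T e.ys d.Bad Set.univ + (C + 1) * ε' := by ring
      _ = _ := by rw [h6']
  · intro t B hB hBt
    refine hw₀ w₀ le_rfl d e L L₂ (w₀ ! * (30 * K)) t B hL hL₂ ?_ hB hBt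
    rw [hdK]

end Pool.Agent.H34.LF
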