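import Pool.Agent.H28.LF.F1

/-!
Project LF, YEX: the measure on the `y`-side exists.
-/

set_option autoImplicit false

open MeasureTheory ProbabilityTheory Filter Topology Finset
open scoped Nat ENNReal

namespace Pool.Agent.H34.LF

open Pool.Agent.H24.MR (lam FinAddInv)
open Pool.Agent.H24.T2 (Pset MRprop)
open Pool.Agent.H28.MCL (ldB Aw)
open Pool.Agent.H67.AG (avgP ul Inv Rt Av)
open Pool.Agent.H28.LF

theorem pf_YEX (hS : T_SHP) (hL : Pool.Agent.H28.MCL.T_LDB) : T_YEX := by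
  intro U x y τ hA
  obtain ⟨hF, -⟩ := hL U x y hA
  obtain ⟨P, h1, h2, h3, h4⟩ := hS LY (ldB U x y) (lY τ) hF
  exact ⟨P, ⟨h1, h2, h3, h4⟩⟩

end Pool.Agent.H34.LF
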