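import Pool.Agent.H28.LF.T3

/-!
Project LF, D6: the selection changes slowly.
-/

set_option autoImplicit false

open MeasureTheory ProbabilityTheory Filter Topology Finset
open scoped Nat ENNReal

namespace Pool.Agent.H34.LF

open Pool.Agent.H24.T2 (Pset)
open Pool.Agent.H67.AG (avgP ul Inv Rt Av SA kap JJ TT InvZ nxt triv tow XN PN TN XX PX TX prX Fac)
open Pool.Agent.H28.LF

theorem TX_iter {X : Type} [MeasurableSpace X] [StandardBorelSpace X] (T : X ≃ᵐ X) (n l : ℕ)
    (p : XX X n) : (∀ b, ((TX T n)^[l] p).2.1 b = T^[l] (p.2.1 b)) ∧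
      ((TX T n)^[l] p).2.2 = T^[l] p.2.2 := by
  induction l with
  | zero => exact ⟨fun b => rfl, rfl⟩
  | succ l ih =>
    rw [Function.iterate_succ_apply']
    constructor
    · intro b
      rw [Function.iterate_succ_apply', ← ih.1 b]
      rfl
    · rw [Function.iterate_succ_apply', ← ih.2]
      rfl

theorem wd_meas (c : Ux) (Λ : ℕ) : Measurable (c.wd Λ) := by
  refine measurable_pi_iff.2 fun l => ?_
  exact c.am.comp (c.T.measurable.iterate _)

open Classical in
/-- the minimum of a set given by booleans -/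
noncomputable def GG (n : ℕ) (s : Fin (n + 1) → Bool) : Fin (n + 1) :=
  if h : (univ.filter fun b => s b = true).Nonempty then
    (univ.filter fun b => s b = true).min' h else 0

open Classical in
theorem sel_eq (c : Ux) (Λ n : ℕ) : c.sel Λ n =
    fun p => GG n fun b => decide (c.wd Λ (p.2.1 b) = c.wd Λ p.2.2) := by
  funext p
  unfold Ux.sel GG
  simp only [decide_eq_true_eq]

theorem meas_wdset (c : Ux) (Λ n : ℕ) (b : Fin (n + 1)) :
    MeasurableSet {p : XX c.X (n + 1) | c.wd Λ (p.2.1 b) = c.wd Λ p.2.2} := by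
  refine measurableSet_eq_fun ?_ ?_
  · exact (wd_meas c Λ).comp ((measurable_pi_apply b).comp (measurable_fst.comp measurable_snd))
  · exact (wd_meas c Λ).comp (measurable_snd.comp measurable_snd)

open Classical in
theorem sel_meas (c : Ux) (Λ n : ℕ) : Measurable (c.sel Λ n) := by
  rw [sel_eq]
  refine (measurable_of_finite (GG n)).comp ?_
  refine measurable_pi_iff.2 fun b => measurable_to_bool ?_
  have h : (fun p : XX c.X (n + 1) => decide (c.wd Λ (p.2.1 b) = c.wd Λ p.2.2)) ⁻¹' {true} =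
      {p : XX c.X (n + 1) | c.wd Λ (p.2.1 b) = c.wd Λ p.2.2} := by
    ext p
    simp
  rw [h]
  exact meas_wdset c Λ n b

theorem NF_meas (c : Ux) (Λ n : ℕ) : MeasurableSet (c.NF Λ n) := by
  have h : c.NF Λ n =
      ⋂ b : Fin (n + 1), {p : XX c.X (n + 1) | c.wd Λ (p.2.1 b) = c.wd Λ p.2.2}ᶜ := by
    ext p
    simp [Ux.NF]
  rw [h]
  exact MeasurableSet.iInter fun b => (meas_wdset c Λ n b).compl

/-- the selected reference has the word of the last point -/
theorem sel_spec (c : Ux) (Λ n : ℕ) (p : XX c.X (n + 1)) (hp : p ∉ c.NF Λ n) :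
    c.wd Λ (p.2.1 (c.sel Λ n p)) = c.wd Λ p.2.2 ∧
      ∀ b, c.wd Λ (p.2.1 b) = c.wd Λ p.2.2 → c.sel Λ n p ≤ b := by
  classical
  have hne : (univ.filter fun b => c.wd Λ (p.2.1 b) = c.wd Λ p.2.2).Nonempty := by
    by_contra hcon
    apply hp
    intro b hb
    exact hcon ⟨b, mem_filter.2 ⟨mem_univ _, hb⟩⟩
  have hs : c.sel Λ n p = (univ.filter fun b => c.wd Λ (p.2.1 b) = c.wd Λ p.2.2).min' hne := by
    unfold Ux.sel
    rw [dif_pos hne]
  constructor
  · have h1 := Finset.min'_mem _ hne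
    rw [← hs] at h1
    exact (mem_filter.1 h1).2
  · intro b hb
    rw [hs]
    refine Finset.min'_le _ _ ?_
    exact mem_filter.2 ⟨mem_univ _, hb⟩

theorem Eqv_iter (hE : T_EQB) (c : Ux) (l : ℕ) (x y : c.X) :
    (x, y) ∈ c.Eqv ↔ (c.T^[l] x, c.T^[l] y) ∈ c.Eqv := by
  obtain ⟨-, hT, -, -⟩ := hE c
  induction l with
  | zero => exact Iff.rfl
  | succ l ih =>
    rw [ih, Function.iterate_succ_apply', Function.iterate_succ_apply']
    have h2 : (c.T^[l] x, c.T^[l] y) ∈ (TT c.T) ⁻¹' c.Eqv ↔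
        (c.T^[l] x, c.T^[l] y) ∈ c.Eqv := by rw [hT]
    exact h2.symm

theorem Eqv_wd (c : Ux) (Λ : ℕ) (x y : c.X) (h : (x, y) ∈ c.Eqv) : c.wd Λ x = c.wd Λ y := by
  funext i
  exact (h i).1

theorem pf_D6 (hE : T_EQB) : T_D6 := by
  intro c Λ l L n P _ hP hΛ hlL
  refine ⟨sel_meas c Λ n, ?_, ?_⟩
  · have hsub : {p : XX c.X (n + 1) | c.sel Λ n ((TX c.T (n + 1))^[l] p) ≠ c.sel Λ n p} ⊆
        (c.NF Λ n ∪ (TX c.T (n + 1))^[l] ⁻¹' c.NF Λ n) ∪ c.FE Λ L n := by
      intro p hp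
      by_contra hcon
      simp only [Set.mem_union, not_or] at hcon
      obtain ⟨⟨h1, h2⟩, h3⟩ := hcon
      obtain ⟨t1, t2⟩ := TX_iter c.T (n + 1) l p
      obtain ⟨s1, s2⟩ := sel_spec c Λ n p h1
      obtain ⟨s3, s4⟩ := sel_spec c Λ n ((TX c.T (n + 1))^[l] p) h2
      set b := c.sel Λ n p with hb
      set b' := c.sel Λ n ((TX c.T (n + 1))^[l] p) with hb'
      have hne : b ≠ b' := fun h => hp h.symm
      rw [t1, t2] at s3
      have hag : ∀ i, L ≤ i → i < Λ →
          c.a (c.T^[i] (p.2.1 b)) = c.a (c.T^[i] (p.2.1 b')) := by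
        intro i hi1 hi2
        have e1 : c.a (c.T^[i] (p.2.1 b)) = c.a (c.T^[i] p.2.2) := congrFun s1 ⟨i, hi2⟩
        have hi3 : i - l < Λ := by omega
        have e2 : c.a (c.T^[i - l] (c.T^[l] (p.2.1 b'))) = c.a (c.T^[i - l] (c.T^[l] p.2.2)) :=
          congrFun s3 ⟨i - l, hi3⟩
        rw [← Function.iterate_add_apply, ← Function.iterate_add_apply,
          Nat.sub_add_cancel (hlL.trans hi1)] at e2
        rw [e1, e2]
      have heq : (p.2.1 b, p.2.1 b') ∈ c.Eqv := by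
        by_contra hcon
        exact h3 ⟨b, b', hne, hcon, hag⟩
      have h5 : b ≤ b' := by
        apply s2
        rw [← Eqv_wd c Λ _ _ heq]
        exact s1
      have h6 : b' ≤ b := by
        apply s4
        rw [t1, t2, Eqv_wd c Λ _ _ ((Eqv_iter hE c l _ _).1 heq)]
        exact s3
      exact hne (le_antisymm h5 h6)
    have h1 : P.real ((TX c.T (n + 1))^[l] ⁻¹' c.NF Λ n) = P.real (c.NF Λ n) := by
      unfold Measure.real
      rw [(hP.iterate l).measure_preimage (NF_meas c Λ n).nullMeasurableSet]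
    calc P.real {p : XX c.X (n + 1) | c.sel Λ n ((TX c.T (n + 1))^[l] p) ≠ c.sel Λ n p}
        ≤ P.real ((c.NF Λ n ∪ (TX c.T (n + 1))^[l] ⁻¹' c.NF Λ n) ∪ c.FE Λ L n) :=
          measureReal_mono hsub
      _ ≤ P.real (c.NF Λ n ∪ (TX c.T (n + 1))^[l] ⁻¹' c.NF Λ n) + P.real (c.FE Λ L n) :=
          measureReal_union_le _ _
      _ ≤ (P.real (c.NF Λ n) + P.real ((TX c.T (n + 1))^[l] ⁻¹' c.NF Λ n)) +
          P.real (c.FE Λ L n) := add_le_add (measureReal_union_le _ _) le_rfl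
      _ = 2 * P.real (c.NF Λ n) + P.real (c.FE Λ L n) := by rw [h1]; ring
  · refine measureReal_mono ?_
    intro p hp
    by_contra hcon
    apply hp
    exact congrFun (sel_spec c Λ n p hcon).1 ⟨0, hΛ⟩

end Pool.Agent.H34.LF
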